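import Mathlib

set_option autoImplicit false

namespace Pool.Agent.Results.MP_77df55_co.NoAcceptable

open Finset

/-- A bipartite graph between `A` and `B` (given by the relation `G a b`: `ab` is an edge) is
`k`-regular if every vertex of `A` and every vertex of `B` has degree `k`. -/
def Regular {A B : Type} (k : ℕ) (G : A → B → Prop) : Prop :=
  (∀ a, {b | G a b}.ncard = k) ∧ (∀ b, {a | G a b}.ncard = k)

/-- The perfect matching `{a σ(a)}` lies in `G`. -/
def IsPM {A B : Type} (G : A → B → Prop) (σ : A ≃ B) : Prop := ∀ a, G a (σ a)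

/-- The perfect matching `{a σ(a)}` is acceptable for `H`. -/
def Acceptable {A B : Type} (H : A → B → Prop) (σ : A ≃ B) : Prop :=
  ¬ ∃ a a' : A, ∃ b b' : B, a ≠ a' ∧ b ≠ b' ∧ σ a = b ∧ σ a' = b' ∧ H a b' ∧ H a' b

/-- The gadget digraph on `Z_s`: `x → x+1, x+2, x+3`, with `0 → 3` and `-1 → 0` replaced by
`-1 → 3`. -/
def gad (s : ℕ) (x y : ZMod s) : Prop :=
  ((y = x + 1 ∨ y = x + 2 ∨ y = x + 3) ∧ ¬ (x = 0 ∧ y = 3) ∧ ¬ (x = -1 ∧ y = 0)) ∨
    (x = -1 ∧ y = 3)

/-- The digraph: a centre joined in both directions to the vertex `0` of three gadgets. -/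
def GG (s : Fin 3 → ℕ) : Option (Σ i, ZMod (s i)) → Option (Σ i, ZMod (s i)) → Prop
  | none, none => False
  | none, some q => q.2 = 0
  | some p, none => p.2 = 0
  | some p, some q => ∃ h : p.1 = q.1, gad (s q.1) (h ▸ p.2) q.2

lemma ne_small {s : ℕ} (hs : 5 ≤ s) (k : ℕ) (hk : 0 < k) (hk5 : k < 5) : ((k : ℕ) : ZMod s) ≠ 0 := by
  rw [Ne, ZMod.natCast_eq_zero_iff]
  intro h
  have := Nat.le_of_dvd hk h
  omega

section
variable {s : ℕ}

lemma h1 (hs : 5 ≤ s) : (1 : ZMod s) ≠ 0 := by simpa using ne_small hs 1 (by norm_num) (by norm_num)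
lemma h2 (hs : 5 ≤ s) : (2 : ZMod s) ≠ 0 := by simpa using ne_small hs 2 (by norm_num) (by norm_num)
lemma h3 (hs : 5 ≤ s) : (3 : ZMod s) ≠ 0 := by simpa using ne_small hs 3 (by norm_num) (by norm_num)
lemma h4 (hs : 5 ≤ s) : (4 : ZMod s) ≠ 0 := by simpa using ne_small hs 4 (by norm_num) (by norm_num)

lemma gad_out (hs : 5 ≤ s) (x : ZMod s) :
    (x = 0 ∧ ∀ y, gad s x y ↔ (y = 1 ∨ y = 2)) ∨
    (x ≠ 0 ∧ ∃ a b c : ZMod s, a ≠ b ∧ a ≠ c ∧ b ≠ c ∧ ∀ y, gad s x y ↔ (y = a ∨ y = b ∨ y = c)) := by
  have e1 := h1 hs
  have e2 := h2 hs
  have e3 := h3 hs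
  have e4 := h4 hs
  by_cases hx : x = 0
  · left
    subst hx
    refine ⟨rfl, fun y => ?_⟩
    unfold gad
    have n1 : (0 : ZMod s) ≠ -1 := by
      intro h; apply e1; linear_combination h
    have n2 : (1 : ZMod s) ≠ 3 := by
      intro h; apply e2; linear_combination -h
    have n3 : (2 : ZMod s) ≠ 3 := by
      intro h; apply e1; linear_combination -h
    constructor
    · rintro (⟨h | h | h, h', -⟩ | h)
      · left; rw [h]; ring
      · right; rw [h]; ring
      · exfalso; apply h'; refine ⟨rfl, ?_⟩; rw [h]; ring
      · exact absurd h.1 n1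
    · rintro (rfl | rfl)
      · left
        refine ⟨Or.inl (by ring), fun h => n2 h.2, fun h => n1 h.1⟩
      · left
        refine ⟨Or.inr (Or.inl (by ring)), fun h => n3 h.2, fun h => n1 h.1⟩
  · right
    refine ⟨hx, ?_⟩
    by_cases hx1 : x = -1
    · subst hx1
      refine ⟨1, 2, 3, ?_, ?_, ?_, fun y => ?_⟩
      · intro h; apply e1; linear_combination -h
      · intro h; apply e2; linear_combination -h
      · intro h; apply e1; linear_combination -h
      · unfold gad
        constructor
        · rintro (⟨h | h | h, -, h'⟩ | h)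
          · exfalso; apply h'; refine ⟨rfl, ?_⟩; rw [h]; ring
          · left; rw [h]; ring
          · right; left; rw [h]; ring
          · right; right; exact h.2
        · rintro (rfl | rfl | rfl)
          · left
            refine ⟨Or.inr (Or.inl (by ring)), fun h => hx h.1, fun h => e1 h.2⟩
          · left
            refine ⟨Or.inr (Or.inr (by ring)), fun h => hx h.1, fun h => e2 h.2⟩
          · right; exact ⟨rfl, rfl⟩
    · refine ⟨x + 1, x + 2, x + 3, ?_, ?_, ?_, fun y => ?_⟩
      · intro h; apply e1; linear_combination -h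
      · intro h; apply e2; linear_combination -h
      · intro h; apply e1; linear_combination -h
      · unfold gad
        constructor
        · rintro (⟨h, -, -⟩ | h)
          · exact h
          · exact absurd h.1 hx1
        · intro h
          exact Or.inl ⟨h, fun h => hx h.1, fun h => hx1 h.1⟩

lemma gad_in (hs : 5 ≤ s) (y : ZMod s) :
    (y = 0 ∧ ∀ x, gad s x y ↔ (x = -2 ∨ x = -3)) ∨
    (y ≠ 0 ∧ ∃ a b c : ZMod s, a ≠ b ∧ a ≠ c ∧ b ≠ c ∧ ∀ x, gad s x y ↔ (x = a ∨ x = b ∨ x = c)) := by
  have e1 := h1 hs
  have e2 := h2 hs
  have e3 := h3 hs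
  have e4 := h4 hs
  by_cases hy : y = 0
  · left
    subst hy
    refine ⟨rfl, fun x => ?_⟩
    unfold gad
    have n1 : (0 : ZMod s) ≠ 3 := fun h => e3 h.symm
    have n2 : (-2 : ZMod s) ≠ -1 := by
      intro h; apply e1; linear_combination -h
    have n3 : (-3 : ZMod s) ≠ -1 := by
      intro h; apply e2; linear_combination -h
    constructor
    · rintro (⟨h | h | h, -, h'⟩ | h)
      · exfalso; apply h'; refine ⟨?_, rfl⟩; linear_combination -h
      · left; linear_combination -h
      · right; linear_combination -h
      · exact absurd h.2 n1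
    · rintro (rfl | rfl)
      · left
        refine ⟨Or.inr (Or.inl (by ring)), fun h => n1 h.2, fun h => n2 h.1⟩
      · left
        refine ⟨Or.inr (Or.inr (by ring)), fun h => n1 h.2, fun h => n3 h.1⟩
  · right
    refine ⟨hy, ?_⟩
    by_cases hy3 : y = 3
    · subst hy3
      refine ⟨-1, 1, 2, ?_, ?_, ?_, fun x => ?_⟩
      · intro h; apply e2; linear_combination -h
      · intro h; apply e3; linear_combination -h
      · intro h; apply e1; linear_combination -h
      · unfold gad
        constructor
        · rintro (⟨h | h | h, h', -⟩ | h)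
          · right; right; linear_combination -h
          · right; left; linear_combination -h
          · exfalso; apply h'; refine ⟨?_, rfl⟩; linear_combination -h
          · left; exact h.1
        · rintro (rfl | rfl | rfl)
          · right; exact ⟨rfl, rfl⟩
          · left
            refine ⟨Or.inr (Or.inl (by ring)), fun h => e1 h.1, fun h => e3 h.2⟩
          · left
            refine ⟨Or.inl (by ring), fun h => e2 h.1, fun h => e3 h.2⟩
    · refine ⟨y - 1, y - 2, y - 3, ?_, ?_, ?_, fun x => ?_⟩
      · intro h; apply e1; linear_combination h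
      · intro h; apply e2; linear_combination h
      · intro h; apply e1; linear_combination h
      · unfold gad
        constructor
        · rintro (⟨h | h | h, -, -⟩ | h)
          · left; rw [h]; ring
          · right; left; rw [h]; ring
          · right; right; rw [h]; ring
          · exact absurd h.2 hy3
        · rintro (rfl | rfl | rfl)
          · exact Or.inl ⟨Or.inl (by ring), fun h => hy3 h.2, fun h => hy h.2⟩
          · exact Or.inl ⟨Or.inr (Or.inl (by ring)), fun h => hy3 h.2, fun h => hy h.2⟩
          · exact Or.inl ⟨Or.inr (Or.inr (by ring)), fun h => hy3 h.2, fun h => hy h.2⟩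

lemma gad_irrefl (hs : 5 ≤ s) (x : ZMod s) : ¬ gad s x x := by
  have e1 := h1 hs
  have e2 := h2 hs
  have e3 := h3 hs
  have e4 := h4 hs
  unfold gad
  rintro (⟨h | h | h, -, -⟩ | ⟨h, h'⟩)
  · apply e1; linear_combination -h
  · apply e2; linear_combination -h
  · apply e3; linear_combination -h
  · apply e4; linear_combination h - h'

end

lemma GG_same (s : Fin 3 → ℕ) (i : Fin 3) (x y : ZMod (s i)) :
    GG s (some ⟨i, x⟩) (some ⟨i, y⟩) ↔ gad (s i) x y := by
  constructor
  · rintro ⟨_, h⟩
    exact h
  · intro h
    exact ⟨rfl, h⟩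

lemma GG_diff (s : Fin 3 → ℕ) {i j : Fin 3} (hij : i ≠ j) (x : ZMod (s i)) (y : ZMod (s j)) :
    ¬ GG s (some ⟨i, x⟩) (some ⟨j, y⟩) := by
  rintro ⟨h, _⟩
  exact hij h

lemma GG_regular (s : Fin 3 → ℕ) (hs : ∀ i, 5 ≤ s i) : Regular 3 (GG s) := by
  constructor
  · rintro (_ | ⟨i, x⟩)
    · rw [Set.ncard_eq_three]
      refine ⟨some ⟨0, 0⟩, some ⟨1, 0⟩, some ⟨2, 0⟩, by simp, by simp, by simp, ?_⟩
      ext v
      rcases v with _ | ⟨j, y⟩
      · simp [GG]
      · simp only [Set.mem_ofPred_eq, Set.mem_insert_iff, Set.mem_singleton_iff,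
          Option.some.injEq]
        show y = 0 ↔ _
        constructor
        · rintro rfl
          fin_cases j
          · left; rfl
          · right; left; rfl
          · right; right; rfl
        · rintro (h | h | h)
          · cases h; rfl
          · cases h; rfl
          · cases h; rfl
    · rcases gad_out (hs i) x with ⟨hx, h⟩ | ⟨hx, a, b, c, hab, hac, hbc, h⟩
      · rw [Set.ncard_eq_three]
        refine ⟨none, some ⟨i, 1⟩, some ⟨i, 2⟩, by simp, by simp, ?_, ?_⟩
        · intro h'
          rw [Option.some.injEq, Sigma.mk.injEq] at h'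
          have := eq_of_heq h'.2
          exact h1 (hs i) (by linear_combination -this)
        · ext v
          rcases v with _ | ⟨j, y⟩
          · simp only [Set.mem_ofPred_eq, Set.mem_insert_iff, true_or, iff_true]
            exact hx
          · simp only [Set.mem_ofPred_eq, Set.mem_insert_iff, Set.mem_singleton_iff]
            by_cases hij : i = j
            · subst hij
              rw [GG_same, h y]
              simp
            · constructor
              · intro h'; exact absurd h' (GG_diff s hij x y)
              · rintro (h' | h' | h')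
                · cases h'
                · cases h'; exact absurd rfl hij
                · cases h'; exact absurd rfl hij
      · rw [Set.ncard_eq_three]
        refine ⟨some ⟨i, a⟩, some ⟨i, b⟩, some ⟨i, c⟩, by simpa using hab, by simpa using hac,
          by simpa using hbc, ?_⟩
        ext v
        rcases v with _ | ⟨j, y⟩
        · simp only [Set.mem_ofPred_eq, Set.mem_insert_iff, Set.mem_singleton_iff, reduceCtorEq,
            or_self, iff_false]
          exact hx
        · simp only [Set.mem_ofPred_eq, Set.mem_insert_iff, Set.mem_singleton_iff]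
          by_cases hij : i = j
          · subst hij
            rw [GG_same, h y]
            simp
          · constructor
            · intro h'; exact absurd h' (GG_diff s hij x y)
            · rintro (h' | h' | h')
              · cases h'; exact absurd rfl hij
              · cases h'; exact absurd rfl hij
              · cases h'; exact absurd rfl hij
  · rintro (_ | ⟨i, x⟩)
    · rw [Set.ncard_eq_three]
      refine ⟨some ⟨0, 0⟩, some ⟨1, 0⟩, some ⟨2, 0⟩, by simp, by simp, by simp, ?_⟩
      ext v
      rcases v with _ | ⟨j, y⟩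
      · simp [GG]
      · simp only [Set.mem_ofPred_eq, Set.mem_insert_iff, Set.mem_singleton_iff,
          Option.some.injEq]
        show y = 0 ↔ _
        constructor
        · rintro rfl
          fin_cases j
          · left; rfl
          · right; left; rfl
          · right; right; rfl
        · rintro (h | h | h)
          · cases h; rfl
          · cases h; rfl
          · cases h; rfl
    · rcases gad_in (hs i) x with ⟨hx, h⟩ | ⟨hx, a, b, c, hab, hac, hbc, h⟩
      · rw [Set.ncard_eq_three]
        refine ⟨none, some ⟨i, -2⟩, some ⟨i, -3⟩, by simp, by simp, ?_, ?_⟩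
        · intro h'
          rw [Option.some.injEq, Sigma.mk.injEq] at h'
          have := eq_of_heq h'.2
          exact h1 (hs i) (by linear_combination this)
        · ext v
          rcases v with _ | ⟨j, y⟩
          · simp only [Set.mem_ofPred_eq, Set.mem_insert_iff, true_or, iff_true]
            exact hx
          · simp only [Set.mem_ofPred_eq, Set.mem_insert_iff, Set.mem_singleton_iff]
            by_cases hij : i = j
            · subst hij
              rw [GG_same, h y]
              simp
            · constructor
              · intro h'; exact absurd h' (GG_diff s (Ne.symm hij) y x)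
              · rintro (h' | h' | h')
                · cases h'
                · cases h'; exact absurd rfl hij
                · cases h'; exact absurd rfl hij
      · rw [Set.ncard_eq_three]
        refine ⟨some ⟨i, a⟩, some ⟨i, b⟩, some ⟨i, c⟩, by simpa using hab, by simpa using hac,
          by simpa using hbc, ?_⟩
        ext v
        rcases v with _ | ⟨j, y⟩
        · simp only [Set.mem_ofPred_eq, Set.mem_insert_iff, Set.mem_singleton_iff, reduceCtorEq,
            or_self, iff_false]
          exact hx
        · simp only [Set.mem_ofPred_eq, Set.mem_insert_iff, Set.mem_singleton_iff]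
          by_cases hij : i = j
          · subst hij
            rw [GG_same, h y]
            simp
          · constructor
            · intro h'; exact absurd h' (GG_diff s (Ne.symm hij) y x)
            · rintro (h' | h' | h')
              · cases h'; exact absurd rfl hij
              · cases h'; exact absurd rfl hij
              · cases h'; exact absurd rfl hij

lemma GG_irrefl (s : Fin 3 → ℕ) (hs : ∀ i, 5 ≤ s i) (v : Option (Σ i, ZMod (s i))) :
    ¬ GG s v v := by
  rcases v with _ | ⟨i, x⟩
  · exact fun h => h
  · rw [GG_same]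
    exact gad_irrefl (hs i) x

/-- Every perfect matching of the digraph contains a digon through the centre. -/
lemma digon (s : Fin 3 → ℕ) [Fintype (Option (Σ i, ZMod (s i)))]
    (σ : Equiv.Perm (Option (Σ i, ZMod (s i)))) (hσ : ∀ v, GG s v (σ v)) :
    ∃ v, v ≠ none ∧ σ none = v ∧ σ v = none := by
  classical
  have h0 := hσ none
  rcases hv : σ none with _ | ⟨i, x⟩
  · rw [hv] at h0
    exact absurd h0 (fun h => h)
  · rw [hv] at h0
    have hx : x = 0 := h0
    subst hx
    refine ⟨some ⟨i, 0⟩, by simp, rfl, ?_⟩
    by_contra hne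
    let X : Finset (Option (Σ i, ZMod (s i))) := univ.filter (fun v => ∃ y : ZMod (s i),
      v = some ⟨i, y⟩)
    have hX : ∀ v, v ∈ X ↔ ∃ y : ZMod (s i), v = some ⟨i, y⟩ := by
      intro v; simp [X]
    have hnone : none ∉ X := by
      rw [hX]; rintro ⟨y, hy⟩; cases hy
    have hmap : (insert none X).image σ ⊆ X := by
      intro w hw
      rw [mem_image] at hw
      obtain ⟨v, hv', rfl⟩ := hw
      rw [mem_insert] at hv'
      rcases hv' with rfl | hv'
      · rw [hv, hX]; exact ⟨0, rfl⟩
      · obtain ⟨y, rfl⟩ := (hX v).1 hv'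
        have hy := hσ (some ⟨i, y⟩)
        rcases hw : σ (some ⟨i, y⟩) with _ | ⟨j, z⟩
        · exfalso
          rw [hw] at hy
          have hy0 : y = 0 := hy
          subst hy0
          exact hne hw
        · rw [hw] at hy
          by_cases hij : i = j
          · subst hij
            rw [hX]; exact ⟨z, rfl⟩
          · exact absurd hy (GG_diff s hij y z)
    have hc := card_le_card hmap
    rw [card_image_of_injective _ σ.injective, card_insert_of_notMem hnone] at hc
    omega

lemma ncard_comp {A B : Type} (e : A ≃ B) (P : A → Prop) :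
    {b | P (e.symm b)}.ncard = {a | P a}.ncard := by
  have : {b | P (e.symm b)} = e '' {a | P a} := by
    ext b
    simp only [Set.mem_ofPred_eq, Set.mem_image]
    constructor
    · intro h; exact ⟨e.symm b, h, by simp⟩
    · rintro ⟨a, ha, rfl⟩; simpa using ha
  rw [this, Set.ncard_image_of_injective _ e.injective]

/-- **Result.** For every `n ≥ 16` there are a 3-regular bipartite graph `G` and an edge-disjoint
1-regular bipartite graph `H` on `A ∪ B`, `|A| = |B| = n`, such that no perfect matching of `G`
is acceptable for `H`. -/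
theorem result : ∀ n : ℕ, 16 ≤ n → ∃ G H : Fin n → Fin n → Prop,
    Regular 3 G ∧ Regular 1 H ∧ (∀ a b, ¬ (G a b ∧ H a b)) ∧
    ∀ σ : Fin n ≃ Fin n, IsPM G σ → ¬ Acceptable H σ := by
  intro n hn
  let s : Fin 3 → ℕ := ![5, 5, n - 11]
  have hs : ∀ i, 5 ≤ s i := by
    intro i
    fin_cases i
    · exact le_rfl
    · exact le_rfl
    · show 5 ≤ n - 11
      omega
  have hz : ∀ i, NeZero (s i) := fun i => ⟨by have := hs i; omega⟩
  have hcard : Fintype.card (Option (Σ i, ZMod (s i))) = n := by
    rw [Fintype.card_option, Fintype.card_sigma]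
    simp only [ZMod.card]
    rw [Fin.sum_univ_three]
    show 5 + 5 + (n - 11) + 1 = n
    omega
  let e : Option (Σ i, ZMod (s i)) ≃ Fin n := Fintype.equivFinOfCardEq hcard
  have hreg := GG_regular s hs
  refine ⟨fun a b => GG s (e.symm a) (e.symm b), fun a b => a = b, ⟨?_, ?_⟩, ⟨?_, ?_⟩, ?_, ?_⟩
  · intro a
    have := ncard_comp e (fun b => GG s (e.symm a) b)
    rw [this]
    exact hreg.1 _
  · intro b
    have := ncard_comp e (fun a => GG s a (e.symm b))
    rw [this]
    exact hreg.2 _
  · intro a
    rw [Set.ncard_eq_one]
    exact ⟨a, by ext b; simp [eq_comm]⟩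
  · intro b
    rw [Set.ncard_eq_one]
    exact ⟨b, by ext a; simp⟩
  · rintro a b ⟨h, rfl⟩
    exact GG_irrefl s hs _ h
  · intro σ hσ hacc
    apply hacc
    let τ : Equiv.Perm (Option (Σ i, ZMod (s i))) := (e.trans σ).trans e.symm
    have hτ : ∀ v, GG s v (τ v) := by
      intro v
      have := hσ (e v)
      simpa [τ] using this
    obtain ⟨v, hv0, hv1, hv2⟩ := digon s τ hτ
    refine ⟨e none, e v, e v, e none, ?_, ?_, ?_, ?_, rfl, rfl⟩
    · intro h; exact hv0 (e.injective h).symm
    · intro h; exact hv0 (e.injective h)
    · rw [← hv1]; simp [τ]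
    · have : e (τ v) = e none := by rw [hv2]
      simpa [τ] using this

end Pool.Agent.Results.MP_77df55_co.NoAcceptable
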